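import Pool.Agent.Y507.Coi.Stm

/-!
# CO-VQP: the volume of the sum of a polytope and the pentagon
-/

set_option autoImplicit false

open MeasureTheory Set
open scoped Matrix ENNReal

namespace Pool.Agent.Y38.Coi

open Pool.Agent.W560.Coiso Pool.Agent.Y507.Coi

/-- the gauge of the pentagon -/
noncomputable def gp (z : ℝ × ℝ) : ℝ :=
  max (z.1 + z.2) (max ((psi - 1) * z.1 + z.2) (max (-2 * psi * z.1 + (psi - 1) * z.2)
    (max ((psi - 1) * z.1 + -2 * psi * z.2) (z.1 + (psi - 1) * z.2))))

theorem gp_le {z : ℝ × ℝ} {s : ℝ} : gp z ≤ s ↔ z ∈ pentR s := by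
  unfold gp pentR
  simp only [max_le_iff, Set.mem_ofPred_eq]

theorem gp_cont : Continuous gp := by
  unfold gp
  fun_prop

theorem gp_nonneg (z : ℝ × ℝ) : 0 ≤ gp z := by
  have h := pentR_x (r := gp z) (x := z.1) (y := z.2) (gp_le.1 le_rfl)
  linarith [h.1, h.2]

theorem pk_le {x y s : ℝ} : (∀ a, pk a 0 * x + pk a 1 * y ≤ s) ↔ (x, y) ∈ pentR s := by
  unfold pk pentR
  simp only [Fin.forall_fin_succ, Set.mem_ofPred_eq]
  simp

/-- the two first coordinates and the others -/
def sp {k : ℕ} (z : Fin (k + 3) → ℝ) : (ℝ × ℝ) × (Fin (k + 1) → ℝ) :=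
  ((z 0, z 1), fun i => z i.succ.succ)

theorem sp_mp {k : ℕ} : MeasurePreserving (sp (k := k)) volume volume := by
  have h1 := volume_preserving_piFinSuccAbove (fun _ : Fin (k + 3) => ℝ) 0
  have h2 := volume_preserving_piFinSuccAbove (fun _ : Fin (k + 2) => ℝ) 0
  have h3 := (MeasurePreserving.id (volume : Measure ℝ)).prod h2
  have h4 := (volume_preserving_prodAssoc (α₁ := ℝ) (β₁ := ℝ) (γ₁ := Fin (k + 1) → ℝ)).symm
  have h5 := h4.comp (h3.comp h1)
  exact h5

theorem kp_dot {k : ℕ} {I : Type} (κ : I → Fin (k + 1) → ℝ) (a : Fin 5) (i : I)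
    (z : Fin (k + 3) → ℝ) :
    kp κ (a, i) ⬝ᵥ z = (pk a 0 * (sp z).1.1 + pk a 1 * (sp z).1.2) + κ i ⬝ᵥ (sp z).2 := by
  simp only [kp, two, sp, dotProduct]
  rw [Fin.sum_univ_succ, Fin.sum_univ_succ]
  simp only [Fin.cons_zero, Fin.cons_succ]
  rw [← add_assoc]
  rfl

theorem mem_qs {k : ℕ} {I : Type} (κ : I → Fin (k + 1) → ℝ) (z : Fin (k + 3) → ℝ) :
    z ∈ QS (kp κ) 1 ↔ ∀ i, (sp z).1 ∈ pentR (1 - κ i ⬝ᵥ (sp z).2) := by
  constructor
  · intro h i
    rw [← pk_le (x := (sp z).1.1) (y := (sp z).1.2)]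
    intro a
    have := h (a, i)
    rw [kp_dot] at this
    linarith
  · rintro h ⟨a, i⟩
    rw [kp_dot]
    have := (pk_le (x := (sp z).1.1) (y := (sp z).1.2)).2 (h i) a
    linarith

theorem lint_beta (k : ℕ) : ∫⁻ t in Icc (0 : ℝ) 1, ENNReal.ofReal ((1 - t) ^ 2 * t ^ k) =
    ENNReal.ofReal (2 / (((k : ℝ) + 1) * (k + 2) * (k + 3))) := by
  rw [← ofReal_integral_eq_lintegral_ofReal]
  · congr 1
    rw [integral_Icc_eq_integral_Ioc, ← intervalIntegral.integral_of_le zero_le_one]
    have e : ∀ t : ℝ, (1 - t) ^ 2 * t ^ k = t ^ k - 2 * t ^ (k + 1) + t ^ (k + 2) := by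
      intro t; ring
    simp_rw [e]
    rw [intervalIntegral.integral_add, intervalIntegral.integral_sub,
      intervalIntegral.integral_const_mul, integral_pow, integral_pow, integral_pow]
    · push_cast
      simp only [one_pow]
      rw [zero_pow (by omega), zero_pow (by omega), zero_pow (by omega)]
      field_simp
      ring
    all_goals apply Continuous.intervalIntegrable; fun_prop
  · exact (by fun_prop : Continuous fun t : ℝ => (1 - t) ^ 2 * t ^ k).continuousOn
      |>.integrableOn_compact isCompact_Icc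
  · refine (ae_restrict_iff' measurableSet_Icc).2 (Filter.Eventually.of_forall fun t ht => ?_)
    exact mul_nonneg (sq_nonneg _) (pow_nonneg ht.1 _)

theorem vol_int (k : ℕ) : ∫⁻ y : ℝ × ℝ, ENNReal.ofReal ((max (1 - gp y) 0) ^ (k + 1)) ≤
    ENNReal.ofReal (5 / (((k : ℝ) + 2) * (k + 3))) := by
  have h := lintegral_rpow_eq_lintegral_meas_le_mul (volume : Measure (ℝ × ℝ))
    (f := fun y => max (1 - gp y) 0) (Filter.Eventually.of_forall fun y => le_max_right _ _)
    (by have := gp_cont; exact (by fun_prop : Continuous fun y => max (1 - gp y) 0).aemeasurable)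
    (p := ((k + 1 : ℕ) : ℝ)) (by positivity)
  simp only [Real.rpow_natCast] at h
  rw [h]
  have hle : ∫⁻ t in Ioi (0 : ℝ), volume {a : ℝ × ℝ | t ≤ max (1 - gp a) 0} *
      ENNReal.ofReal (t ^ (((k + 1 : ℕ) : ℝ) - 1)) ≤
      ∫⁻ t in Icc (0 : ℝ) 1, ENNReal.ofReal ((1 - t) ^ 2 * t ^ k) * volume pent := by
    rw [← lintegral_indicator measurableSet_Icc, ← lintegral_indicator measurableSet_Ioi]
    refine lintegral_mono fun t => ?_
    by_cases h0 : t ∈ Ioi (0 : ℝ)
    · have h0' : 0 < t := h0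
      rw [indicator_of_mem h0]
      have hset : {a : ℝ × ℝ | t ≤ max (1 - gp a) 0} = pentR (1 - t) := by
        ext a
        rw [← gp_le, Set.mem_ofPred_eq, le_max_iff]
        constructor
        · rintro (h1 | h1)
          · linarith
          · linarith
        · intro h1
          left; linarith
      rw [hset]
      by_cases h1 : t ≤ 1
      · rw [indicator_of_mem (show t ∈ Icc (0 : ℝ) 1 from ⟨h0'.le, h1⟩)]
        have e : t ^ (((k + 1 : ℕ) : ℝ) - 1) = t ^ k := by
          rw [Nat.cast_succ, add_sub_cancel_right, Real.rpow_natCast]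
        rw [e, ENNReal.ofReal_mul (sq_nonneg _)]
        calc volume (pentR (1 - t)) * ENNReal.ofReal (t ^ k)
            ≤ (ENNReal.ofReal ((1 - t) ^ 2) * volume pent) * ENNReal.ofReal (t ^ k) :=
              mul_le_mul_left (volume_pentR (sub_nonneg.2 h1)) _
          _ = ENNReal.ofReal ((1 - t) ^ 2) * ENNReal.ofReal (t ^ k) * volume pent := by ring
      · have hemp : pentR (1 - t) = ∅ := by
          rw [eq_empty_iff_forall_notMem]
          rintro ⟨x, y⟩ hxy
          have := pentR_x hxy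
          rw [not_le] at h1
          linarith [this.1, this.2]
        rw [hemp, measure_empty, zero_mul]
        exact bot_le
    · rw [indicator_of_notMem h0]
      exact bot_le
  refine (mul_le_mul_right hle _).trans ?_
  rw [lintegral_mul_const _ (by fun_prop), lint_beta]
  refine (mul_le_mul_right (mul_le_mul_right volume_pent _) _).trans ?_
  rw [← ENNReal.ofReal_mul (by positivity), ← ENNReal.ofReal_mul (by positivity)]
  refine ENNReal.ofReal_le_ofReal (le_of_eq ?_)
  push_cast
  field_simp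

theorem closed_B {k : ℕ} {I : Type} (κ : I → Fin (k + 1) → ℝ) :
    IsClosed {w : (ℝ × ℝ) × (Fin (k + 1) → ℝ) | ∀ i, gp w.1 + κ i ⬝ᵥ w.2 ≤ 1} := by
  rw [Set.ofPred_forall]
  refine isClosed_iInter fun i => isClosed_le ?_ continuous_const
  have := gp_cont
  unfold dotProduct
  fun_prop

theorem thm : S_VQP := by
  intro hS k I _ _ κ hb
  have hsub : ∀ z ∈ QS (kp κ) 1, ∀ i, gp (sp z).1 + κ i ⬝ᵥ (sp z).2 ≤ 1 := by
    intro z hz i
    have := gp_le.2 ((mem_qs κ z).1 hz i)
    linarith
  constructor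
  · obtain ⟨R, hR⟩ := hb.subset_closedBall 0
    rw [Metric.isBounded_iff_subset_closedBall 0]
    refine ⟨max R 2, fun z hz => ?_⟩
    have h1 := hsub z hz
    have hq : (sp z).2 ∈ QS κ 1 := fun i => by linarith [h1 i, gp_nonneg (sp z).1]
    have hqR := hR hq
    rw [mem_closedBall_zero_iff] at hqR
    -- some facet is nonnegative at `q`
    obtain ⟨i, hi⟩ : ∃ i, 0 ≤ κ i ⬝ᵥ (sp z).2 := by
      by_contra hno
      push Not at hno
      have hne : (sp z).2 ≠ 0 := by
        intro h0
        obtain ⟨i⟩ := (inferInstance : Nonempty I)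
        have := hno i
        rw [h0, dotProduct_zero] at this
        exact lt_irrefl _ this
      have hray : ∀ l : ℝ, 0 ≤ l → l • (sp z).2 ∈ QS κ 1 := by
        intro l hl i
        rw [dotProduct_smul, smul_eq_mul]
        nlinarith [hno i]
      have hpos : 0 < ‖(sp z).2‖ := norm_pos_iff.2 hne
      have h2 := hR (hray ((|R| + 1) / ‖(sp z).2‖) (by positivity))
      rw [mem_closedBall_zero_iff, norm_smul, Real.norm_eq_abs, abs_of_nonneg (by positivity),
        div_mul_cancel₀ _ hpos.ne'] at h2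
      linarith [le_abs_self R]
    have hpent : (sp z).1 ∈ pentR 1 := gp_le.1 (by linarith [h1 i])
    have hx := pentR_x (x := (sp z).1.1) (y := (sp z).1.2) hpent
    obtain ⟨g0, g1, g2, g3, g4⟩ := hpent
    have hp := psi_gt
    have hp' := psi_lt
    have hy1 : (sp z).1.2 ≤ 2 := by linarith [hx.2]
    have hy2 : -2 ≤ (sp z).1.2 := by nlinarith [hx.1, hx.2]
    rw [mem_closedBall_zero_iff, pi_norm_le_iff_of_nonneg (le_max_of_le_right (by norm_num))]
    intro j
    rw [Real.norm_eq_abs]
    refine Fin.cases ?_ (fun j => ?_) j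
    · have e : z 0 = (sp z).1.1 := rfl
      rw [e]
      exact (abs_le.2 ⟨by linarith [hx.2], by linarith [hx.1]⟩).trans (le_max_right R 2)
    · refine Fin.cases ?_ (fun j => ?_) j
      · have e : z (Fin.succ 0) = (sp z).1.2 := rfl
        rw [e]
        exact (abs_le.2 ⟨hy2, hy1⟩).trans (le_max_right R 2)
      · have e : z j.succ.succ = (sp z).2 j := rfl
        rw [e]
        exact ((norm_le_pi_norm (sp z).2 j).trans hqR).trans (le_max_left R 2)
  · set B : Set ((ℝ × ℝ) × (Fin (k + 1) → ℝ)) := {w | ∀ i, gp w.1 + κ i ⬝ᵥ w.2 ≤ 1} with hB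
    have hBm : MeasurableSet B := (closed_B κ).measurableSet
    have hv : volume (QS (kp κ) 1) ≤ ENNReal.ofReal (5 / (((k : ℝ) + 2) * (k + 3))) *
        volume (QS κ 1) := by
      have hs : QS (kp κ) 1 ⊆ sp ⁻¹' B := fun z hz => hsub z hz
      refine (measure_mono hs).trans ?_
      rw [sp_mp.measure_preimage hBm.nullMeasurableSet, Measure.volume_eq_prod,
        Measure.prod_apply hBm]
      calc ∫⁻ y, volume (Prod.mk y ⁻¹' B)
          ≤ ∫⁻ y : ℝ × ℝ, ENNReal.ofReal ((max (1 - gp y) 0) ^ (k + 1)) * volume (QS κ 1) := by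
            refine lintegral_mono fun y => ?_
            have hsl : Prod.mk y ⁻¹' B ⊆ QS κ (1 - gp y) := by
              intro q hq i
              have : gp y + κ i ⬝ᵥ q ≤ 1 := hq i
              linarith
            exact (measure_mono hsl).trans (hS k I κ hb (1 - gp y) (by linarith [gp_nonneg y]))
        _ = (∫⁻ y : ℝ × ℝ, ENNReal.ofReal ((max (1 - gp y) 0) ^ (k + 1))) * volume (QS κ 1) := by
            have := gp_cont
            rw [lintegral_mul_const _ (by fun_prop)]
        _ ≤ _ := mul_le_mul_left (vol_int k) _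
    calc ENNReal.ofReal (((k : ℝ) + 2) * (k + 3)) * volume (QS (kp κ) 1)
        ≤ ENNReal.ofReal (((k : ℝ) + 2) * (k + 3)) *
          (ENNReal.ofReal (5 / (((k : ℝ) + 2) * (k + 3))) * volume (QS κ 1)) :=
          mul_le_mul_right hv _
      _ = ENNReal.ofReal 5 * volume (QS κ 1) := by
          rw [← mul_assoc, ← ENNReal.ofReal_mul (by positivity)]
          congr 2
          field_simp

end Pool.Agent.Y38.Coi
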